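import Pool.Agent.Helper24.HN.Basic
import Pool.Agent.Helper24.HM.Defs

/-!
The directions span the tangent space: several directions (project XN, wave 3, MP_9410e4).
-/

namespace Pool.Agent.Helper55.HM

open Pool.Agent.Helper24.HN
open Pool.Agent.Helper24.HM (LocM RefM)

variable {p : ℕ} [Fact p.Prime]

theorem residue_eq {a b : ℤ_[p]} (h : ‖a - b‖ ≤ (p : ℝ) ^ (-2 : ℤ)) :
    IsLocalRing.residue ℤ_[p] a = IsLocalRing.residue ℤ_[p] b := by
  rw [← sub_eq_zero, ← map_sub, IsLocalRing.residue_eq_zero_iff, IsLocalRing.mem_maximalIdeal,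
    PadicInt.mem_nonunits]
  exact h.trans_lt pow_two_le

/-- A matrix near an invertible matrix is invertible. -/
theorem det_unit_of_near {ι : Type*} [Fintype ι] [DecidableEq ι] {A B : Matrix ι ι ℤ_[p]}
    (hB : IsUnit B.det) (h : ∀ i j, ‖A i j - B i j‖ ≤ (p : ℝ) ^ (-2 : ℤ)) : IsUnit A.det := by
  have e : A.map (IsLocalRing.residue ℤ_[p]) = B.map (IsLocalRing.residue ℤ_[p]) := by
    ext i j
    exact residue_eq (h i j)
  have e2 : IsLocalRing.residue ℤ_[p] A.det = IsLocalRing.residue ℤ_[p] B.det := by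
    rw [RingHom.map_det, RingHom.map_det]
    exact congrArg Matrix.det e
  have h3 : IsUnit (IsLocalRing.residue ℤ_[p] A.det) := by
    rw [e2]
    exact hB.map _
  exact isUnit_of_map_unit _ _ h3

/-- The rows of a matrix whose determinant is a unit span. -/
theorem span_rows {n : ℕ} {A : Matrix (Fin n) (Fin n) ℤ_[p]} (hA : IsUnit A.det) :
    Submodule.span ℚ_[p] (Set.range fun a => cst (A a)) = ⊤ := by
  set B : Matrix (Fin n) (Fin n) ℚ_[p] := A.map (PadicInt.Coe.ringHom (p := p)) with hB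
  have h5 : IsUnit B := by
    rw [Matrix.isUnit_iff_isUnit_det]
    have : B.det = PadicInt.Coe.ringHom (p := p) A.det := by
      rw [RingHom.map_det]
      rfl
    rw [this]
    exact hA.map _
  have h6 : LinearIndependent ℚ_[p] B.row := Matrix.linearIndependent_rows_of_isUnit h5
  exact h6.span_eq_top_of_card_eq_finrank' (by simp)

/-- The directions at the zeros near a reference configuration span the tangent space; `e`
enumerates `n` zeros which are not `y`. -/
theorem span_of_xi {n : ℕ} {I J : Type} (L : LocM p n I) (ty : J → I) (y : J) (u0 : V p n)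
    (z : J → ℤ_[p]) (e : Fin n → J) (he : ∀ a, e a ≠ y)
    (hdet : IsUnit (Matrix.of fun (a : Fin n) (i : Fin n) =>
      L.xi (ty (e a)) u0 (z (e a)) i).det)
    (x1 : V p n) (ζ : J → ℤ_[p]) (h1 : ‖x1 - u0‖ ≤ (p : ℝ) ^ (-2 : ℤ))
    (hz : ∀ a, a ≠ y → ‖ζ a - z a‖ ≤ (p : ℝ) ^ (-2 : ℤ)) :
    ⊤ ≤ Submodule.span ℚ_[p] ((Pool.Agent.Helper24.HM.lin L ty x1 ζ).v '' {a | a ≠ y}) := by
  have h2 : IsUnit (Matrix.of fun (a : Fin n) (i : Fin n) =>
      L.xi (ty (e a)) x1 (ζ (e a)) i).det := by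
    refine det_unit_of_near hdet fun a i => ?_
    have h3 : ‖L.xi (ty (e a)) x1 (ζ (e a)) - L.xi (ty (e a)) u0 (z (e a))‖ ≤
        (p : ℝ) ^ (-2 : ℤ) := (L.hxi _ _ _ _ _).trans (max_le h1 (hz _ (he a)))
    exact (norm_le_pi_norm
      (L.xi (ty (e a)) x1 (ζ (e a)) - L.xi (ty (e a)) u0 (z (e a))) i).trans h3
  have h7 := span_rows h2
  rw [← h7]
  refine Submodule.span_mono ?_
  rintro _ ⟨a, rfl⟩
  exact ⟨e a, he a, rfl⟩

end Pool.Agent.Helper55.HM
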